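import Pool.Agent.W603.PV.Ext

/-!
Finitely generated fields inside function fields over algebraically closed fields.
-/

set_option autoImplicit false

open Finset FF

namespace Pool.Agent.TH145.MF

variable {K : Type} [Field K]

theorem alg_mono {F1 F2 : Subfield K} (h : F1 ≤ F2) {x : K} (hx : IsAlgebraic F1 x) :
    IsAlgebraic F2 x := by
  obtain ⟨p, hp, hpx⟩ := hx
  refine ⟨p.map (Subfield.inclusion h), ?_, ?_⟩
  · exact (Polynomial.map_ne_zero_iff (Subfield.inclusion h).injective).2 hp
  · rw [Polynomial.aeval_def, Polynomial.eval₂_map]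
    rw [Polynomial.aeval_def] at hpx
    exact hpx

theorem exch {k1 : Subfield K} {s t : K} (hs : Transcendental k1 s)
    (h : IsAlgebraic (IntermediateField.adjoin k1 {t}) s) :
    IsAlgebraic (IntermediateField.adjoin k1 {s}) t := by
  by_cases hts : t = s
  · rw [hts]
    exact isAlgebraic_algebraMap
      (⟨s, IntermediateField.subset_adjoin _ _ rfl⟩ : IntermediateField.adjoin k1 {s})
  · by_contra hcon
    have h1 : Transcendental (Algebra.adjoin k1 ((id : K → K) '' {s})) (id t) := by
      rw [Set.image_id]
      intro h2
      exact hcon (IntermediateField.isAlgebraic_adjoin_iff.2 h2)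
    have h2 : AlgebraicIndepOn k1 (id : K → K) {s} := by
      unfold AlgebraicIndepOn
      rw [algebraicIndependent_unique_type_iff]
      exact hs
    have h3 : AlgebraicIndepOn k1 (id : K → K) (insert t {s}) :=
      (AlgebraicIndepOn.insert_iff (by simpa using hts)).2 ⟨h2, h1⟩
    rw [Set.pair_comm, AlgebraicIndepOn.insert_iff (by simpa using fun h => hts h.symm)] at h3
    apply h3.2
    rw [Set.image_id]
    exact IntermediateField.isAlgebraic_adjoin_iff.1 h

theorem exists_ff [IsAlgClosed K] [CharZero K] (k0 : Subfield K) (s : K)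
    (hs : Transcendental k0 s) (T : Finset K) :
    ∃ k1 : Subfield K, k0 ≤ k1 ∧ IsAlgClosed k1 ∧ s ∉ k1 ∧
      ∃ L : IntermediateField k1 K, IsFF k1 L ∧ s ∈ L ∧ ∀ t ∈ T, t ∈ L := by
  classical
  -- a maximal subset of `T` over which `s` is transcendental
  obtain ⟨B, hB⟩ := (T.powerset.filter fun B : Finset K =>
    Transcendental (IntermediateField.adjoin k0 (B : Set K)) s).exists_maximal (by
      refine ⟨∅, ?_⟩
      rw [Finset.mem_filter]
      refine ⟨Finset.empty_mem_powerset T, ?_⟩
      rw [Finset.coe_empty]
      intro h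
      apply hs
      have h1 : IsAlgebraic (⊥ : IntermediateField k0 K) s := by
        rw [IntermediateField.adjoin_empty] at h
        exact h
      have h2 : IsAlgebraic (k0 : Subfield K) s := by
        refine alg_mono (F1 := (⊥ : IntermediateField k0 K).toSubfield) (F2 := k0) ?_ h1
        intro x hx
        obtain ⟨y, hy⟩ := IntermediateField.mem_bot.1 hx
        rw [← hy]
        exact y.2
      exact h2)
  obtain ⟨hBm, hmax⟩ := hB
  rw [Finset.mem_filter, Finset.mem_powerset] at hBm
  obtain ⟨hBT, hBs⟩ := hBm
  set F0 : IntermediateField k0 K := IntermediateField.adjoin k0 (B : Set K) with hF0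
  set k1 : Subfield K := (algebraicClosure F0 K).toSubfield with hk1
  have hk1mem : ∀ x, x ∈ k1 ↔ IsAlgebraic F0 x := fun x => mem_algebraicClosure_iff
  have hF0k1 : ∀ x ∈ F0, x ∈ k1 := by
    intro x hx
    rw [hk1mem]
    exact isAlgebraic_algebraMap (⟨x, hx⟩ : F0)
  have hk01 : k0 ≤ k1 := fun x hx => hF0k1 x (F0.algebraMap_mem ⟨x, hx⟩)
  have hac : IsAlgClosed k1 := (algebraicClosure.isAlgClosure F0 K).isAlgClosed
  have hsk1 : s ∉ k1 := by
    rw [hk1mem]
    exact hBs
  have hsk1' : Transcendental k1 s := by
    intro h
    apply hsk1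
    exact (hk1mem s).2 (by
      have h1 : IsAlgebraic (algebraicClosure F0 K) s := h
      have : Algebra.IsAlgebraic F0 (algebraicClosure F0 K) := inferInstance
      exact h1.restrictScalars F0)
  refine ⟨k1, hk01, hac, hsk1, ?_⟩
  -- the elements of `T` are algebraic over `k1(s)`
  have halg : ∀ t ∈ T, IsAlgebraic (IntermediateField.adjoin k1 {s}) t := by
    intro t ht
    by_cases htB : t ∈ B
    · have h1 : t ∈ k1 := hF0k1 t (IntermediateField.subset_adjoin _ _ (by simpa using htB))
      exact isAlgebraic_algebraMap (⟨t, (IntermediateField.adjoin k1 {s}).algebraMap_mem ⟨t, h1⟩⟩ :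
        IntermediateField.adjoin k1 {s})
    · apply exch hsk1'
      have h1 : ¬ Transcendental (IntermediateField.adjoin k0 ((insert t B : Finset K) : Set K)) s := by
        intro h2
        have h3 := hmax (y := insert t B) (Finset.mem_filter.2
          ⟨Finset.mem_powerset.2 (Finset.insert_subset ht hBT), h2⟩) (Finset.subset_insert _ _)
        exact htB (h3 (Finset.mem_insert_self _ _))
      unfold Transcendental at h1
      rw [not_not] at h1
      refine alg_mono (F1 := (IntermediateField.adjoin k0 ((insert t B : Finset K) : Set K)).toSubfield)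
        (F2 := (IntermediateField.adjoin k1 {t}).toSubfield) ?_ h1
      rw [IntermediateField.adjoin_toSubfield, Subfield.closure_le]
      rintro x (⟨y, rfl⟩ | hx)
      · exact (IntermediateField.adjoin k1 {t}).algebraMap_mem ⟨y.1, hk01 y.2⟩
      · rw [Finset.coe_insert] at hx
        rcases hx with rfl | hx
        · exact IntermediateField.subset_adjoin _ _ rfl
        · exact (IntermediateField.adjoin k1 {t}).algebraMap_mem
            ⟨x, hF0k1 x (IntermediateField.subset_adjoin _ _ hx)⟩
  set E : IntermediateField k1 K := IntermediateField.adjoin k1 {s} with hE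
  let sE : E := ⟨s, IntermediateField.subset_adjoin _ _ rfl⟩
  have hsE : Transcendental k1 sE := by
    intro h
    exact hsk1' (h.algebraMap : IsAlgebraic k1 (algebraMap E K sE))
  have hEFF : IsFF k1 E := by
    apply IsFF.of_finite (f := sE) hsE
    have h1 : IntermediateField.adjoin k1 {sE} = ⊤ := by
      rw [eq_top_iff]
      rintro ⟨x, hx⟩ -
      have h2 : (IntermediateField.adjoin k1 {sE}).map E.val = E := by
        rw [IntermediateField.adjoin_map, Set.image_singleton]
        rfl
      have h3 : x ∈ (IntermediateField.adjoin k1 {sE}).map E.val := by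
        rw [h2]; exact hx
      obtain ⟨y, hy, hyx⟩ := h3
      have h4 : y = ⟨x, hx⟩ := Subtype.ext hyx
      rw [← h4]
      exact hy
    rw [h1]
    apply FiniteDimensional.of_finrank_pos
    rw [IntermediateField.finrank_top]
    exact one_pos
  let L0 : IntermediateField E K := IntermediateField.adjoin E (T : Set K)
  have hfin : FiniteDimensional E L0 :=
    IntermediateField.finiteDimensional_adjoin fun t ht =>
      (halg t (by simpa using ht)).isIntegral
  have hcz : CharZero k1 := charZero_of_injective_algebraMap (algebraMap ℚ k1).injective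
  have hLFF : IsFF k1 L0 := Pool.Agent.W603.PV.isFF_of_finite (F := E)
  refine ⟨L0.restrictScalars k1, hLFF, ?_, ?_⟩
  · exact L0.algebraMap_mem sE
  · intro t ht
    exact IntermediateField.subset_adjoin E _ (by simpa using ht)

end Pool.Agent.TH145.MF
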