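import Pool.Agent.TH145.MF.Rig
import Pool.Agent.TH145.MF.FF
import Pool.Agent.W602.GT.MordDefs

/-!
The covers are Mordellic.
-/

set_option autoImplicit false

open Finset FF Pool.Agent.W602.GT

namespace Pool.Agent.TH145.MF

theorem pair_iff {R : Type*} [Field R] {n : ℕ} (x y : Fin n → R) :
    LinearIndependent R ![x, y] ↔ ∃ i j, x i * y j ≠ x j * y i := by
  rw [LinearIndependent.pair_iff]
  constructor
  · intro h
    by_contra hcon
    push Not at hcon
    by_cases hx : x = 0
    · have h1 := h 1 0 (by rw [hx]; simp)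
      exact one_ne_zero h1.1
    · obtain ⟨i, hi⟩ := Function.ne_iff.1 hx
      have hxi : x i ≠ 0 := hi
      have h1 := h (y i) (- x i) (by
        funext j
        simp only [Pi.add_apply, Pi.smul_apply, smul_eq_mul, Pi.zero_apply]
        linear_combination -(hcon i j))
      exact hxi (neg_eq_zero.1 h1.2)
  · rintro ⟨i, j, hij⟩ s t hst
    have h1 := congrFun hst i
    have h2 := congrFun hst j
    simp only [Pi.add_apply, Pi.smul_apply, smul_eq_mul, Pi.zero_apply] at h1 h2
    have h3 : x i * y j - x j * y i ≠ 0 := sub_ne_zero.2 hij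
    constructor
    · apply (mul_eq_zero.1 (show s * (x i * y j - x j * y i) = 0 by
        linear_combination y j * h1 - y i * h2)).resolve_right h3
    · apply (mul_eq_zero.1 (show t * (x i * y j - x j * y i) = 0 by
        linear_combination x i * h2 - x j * h1)).resolve_right h3

theorem mordellic {K : Type} [Field K] [IsAlgClosed K] [CharZero K] (k0 : Subfield K) (s : K)
    (hs : Transcendental k0 s) {m n e : ℕ} (hn : 1 ≤ n) (he : (n + 1) ^ 2 ≤ e)
    (A : Fin (m + 1) → Fin (n + 1) → K)
    (hN : ∀ k1 : Subfield K, k0 ≤ k1 → IsAlgClosed k1 → s ∉ k1 →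
      ∀ (r : Fin (m + 1) → K) (x y : Fin (n + 1) → K), (∀ j, r j ∈ k1) →
        (∀ j, A j ⬝ᵥ y = r j * (A j ⬝ᵥ x)) → ¬ LinearIndependent K ![x, y])
    {ι : Type} (F : ι → MvPolynomial (Fin (m + 1)) K)
    (hF : ∀ x ∈ Cone F, Rels A (fun j => x j ^ e)) : Mordellic F := by
  classical
  refine ⟨insert s (Finset.univ.image fun p : Fin (m + 1) × Fin (n + 1) => A p.1 p.2),
    fun T hT => ?_⟩
  obtain ⟨k1, hk01, hac, hsk1, L, hL, hsL, hTL⟩ := exists_ff k0 s hs T
  have hcz : CharZero k1 := charZero_of_injective_algebraMap (algebraMap ℚ k1).injective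
  have hAT : ∀ j i, A j i ∈ L := fun j i => hTL _ (hT (Finset.mem_insert_of_mem
    (Finset.mem_image.2 ⟨(j, i), Finset.mem_univ _, rfl⟩)))
  let A' : Fin (m + 1) → Fin (n + 1) → L := fun j i => ⟨A j i, hAT j i⟩
  have hdot : ∀ (j : Fin (m + 1)) (x : Fin (n + 1) → L),
      ((A' j ⬝ᵥ x : L) : K) = A j ⬝ᵥ fun i => (x i : K) := by
    intro j x
    simp only [dotProduct]
    push_cast
    rfl
  have hN' : ∀ (r : Fin (m + 1) → k1) (x y : Fin (n + 1) → L),
      (∀ j, A' j ⬝ᵥ y = algebraMap k1 L (r j) * (A' j ⬝ᵥ x)) → ¬ LinearIndependent L ![x, y] := by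
    intro r x y h hli
    rw [pair_iff] at hli
    obtain ⟨i, j, hij⟩ := hli
    refine hN k1 hk01 hac hsk1 (fun j => (r j : K)) (fun i => (x i : K)) (fun i => (y i : K))
      (fun j => (r j).2) (fun j => ?_) ?_
    · rw [← hdot, ← hdot, h j]
      rfl
    · rw [pair_iff]
      refine ⟨i, j, fun h1 => hij ?_⟩
      apply Subtype.ext
      push_cast
      exact h1
  have hfin := fun j0 => rigid_step (k := k1) (L := L) hn (A := A') he hN' j0
  have hcl : ∀ x ∈ Subfield.closure (T : Set K), x ∈ L := by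
    intro x hx
    have h1 : Subfield.closure (T : Set K) ≤ L.toSubfield := by
      rw [Subfield.closure_le]
      intro t ht
      exact hTL t (by simpa using ht)
    exact h1 hx
  have hne : ∀ (j0 : Fin (m + 1)) (z : {z : Fin (m + 1) → L | z j0 = 1 ∧ Rels A' (fun j => z j ^ e)}),
      (fun i => ((z.1 i : L) : K)) ≠ 0 := by
    intro j0 z h0
    have h1 := congrFun h0 j0
    have h2 := z.2.1
    simp only [Pi.zero_apply] at h1
    rw [h2] at h1
    simp at h1
  let f : (j0 : Fin (m + 1)) → {z : Fin (m + 1) → L | z j0 = 1 ∧ Rels A' (fun j => z j ^ e)} →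
      Projectivization K (Fin (m + 1) → K) := fun j0 z => Projectivization.mk K _ (hne j0 z)
  have hun : (⋃ j0, Set.range (f j0)).Finite := by
    apply Set.finite_iUnion
    intro j0
    have h1 : Finite {z : Fin (m + 1) → L | z j0 = 1 ∧ Rels A' (fun j => z j ^ e)} := hfin j0
    exact Set.finite_range _
  refine hun.subset ?_
  rintro p ⟨x, hxF, hxT, hx0, rfl⟩
  obtain ⟨j0, hj0⟩ := Function.ne_iff.1 hx0
  have hj0' : x j0 ≠ 0 := hj0
  have hxL : ∀ i, x i ∈ L := fun i => hcl _ (hxT i)
  let z : Fin (m + 1) → L := fun i => ⟨x i, hxL i⟩ / ⟨x j0, hxL j0⟩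
  have hzc : ∀ i, ((z i : L) : K) = x i / x j0 := fun i => rfl
  have hzmem : z ∈ {z : Fin (m + 1) → L | z j0 = 1 ∧ Rels A' (fun j => z j ^ e)} := by
    refine ⟨?_, ?_⟩
    · apply Subtype.ext
      rw [hzc, div_self hj0']
      rfl
    · intro b J hJc hJ hb
      have h1 := hF x hxF (fun j => (b j : K)) J hJc (fun j hj => hJ j (by
        intro h2
        apply hj
        rw [h2]
        rfl)) (fun i => by
          have h3 := congrArg (fun t : L => (t : K)) (hb i)
          push_cast at h3
          exact h3)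
      apply Subtype.ext
      push_cast
      have h4 : ∀ j, (b j : K) * ((z j : L) : K) ^ e = (b j : K) * x j ^ e / x j0 ^ e := by
        intro j
        rw [hzc, div_pow]
        ring
      simp only [h4]
      rw [← Finset.sum_div]
      have h5 : ∑ j, (b j : K) * x j ^ e = 0 := h1
      rw [h5, zero_div]
  rw [Set.mem_iUnion]
  refine ⟨j0, ⟨z, hzmem⟩, ?_⟩
  change Projectivization.mk K _ _ = Projectivization.mk K _ _
  rw [Projectivization.mk_eq_mk_iff']
  refine ⟨(x j0)⁻¹, ?_⟩
  funext i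
  simp only [Pi.smul_apply, smul_eq_mul]
  rw [hzc, div_eq_inv_mul]

end Pool.Agent.TH145.MF
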