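import Mathlib

/-!
A criterion for moving families of hyperplanes.
-/

set_option autoImplicit false

open Finset Polynomial

namespace Pool.Agent.TH145.MF

theorem kernel_of_minors {R ρ ι : Type*} [Field R] [Fintype ι] [DecidableEq ι]
    (N : ρ → ι → R) (h : ∀ σ : ι → ρ, (Matrix.of fun i j => N (σ i) j).det = 0) :
    ∃ v : ι → R, v ≠ 0 ∧ ∀ j, N j ⬝ᵥ v = 0 := by
  classical
  obtain ⟨κ, a, ha, hspan, hli⟩ := exists_linearIndependent' R N
  have hfin : Finite κ := hli.finite
  have := Fintype.ofFinite κ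
  have hcard : Fintype.card κ ≤ Fintype.card ι := by
    have h1 := hli.fintype_card_le_finrank
    rwa [Module.finrank_fintype_fun_eq_card] at h1
  rcases hcard.lt_or_eq with hlt | heq
  · let f : (ι → R) →ₗ[R] (κ → R) := Matrix.toLin' (Matrix.of fun l i => N (a l) i)
    have h1 : LinearMap.ker f ≠ ⊥ := by
      apply LinearMap.ker_ne_bot_of_finrank_lt
      rw [Module.finrank_fintype_fun_eq_card, Module.finrank_fintype_fun_eq_card]
      exact hlt
    obtain ⟨v, hv, hv0⟩ := (Submodule.ne_bot_iff _).1 h1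
    refine ⟨v, hv0, fun j => ?_⟩
    have h2 : ∀ l, N (a l) ⬝ᵥ v = 0 := fun l => congrFun (LinearMap.mem_ker.1 hv) l
    have h3 : N j ∈ Submodule.span R (Set.range (N ∘ a)) := by
      rw [hspan]; exact Submodule.subset_span ⟨j, rfl⟩
    obtain ⟨c, hc⟩ := (Submodule.mem_span_range_iff_exists_fun R).1 h3
    rw [← hc, sum_dotProduct]
    refine Finset.sum_eq_zero fun l _ => ?_
    rw [smul_dotProduct, Function.comp_apply, h2, smul_zero]
  · exfalso
    let e : ι ≃ κ := Fintype.equivOfCardEq heq.symm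
    have h1 := h (a ∘ e)
    have h2 : LinearIndependent R (Matrix.of fun i j => N ((a ∘ e) i) j).row := by
      have h3 : LinearIndependent R ((N ∘ a) ∘ e) := (linearIndependent_equiv e).2 hli
      exact h3
    rw [Matrix.linearIndependent_rows_iff_isUnit, Matrix.isUnit_iff_isUnit_det, h1] at h2
    exact not_isUnit_zero h2

theorem transcendental_of_notMem {K : Type*} [Field K] {k1 : Subfield K} (h : IsAlgClosed k1)
    {s : K} (hs : s ∉ k1) : Transcendental k1 s := by
  intro hal
  apply hs
  have h1 : (minpoly k1 s).degree = 1 :=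
    IsAlgClosed.degree_eq_one_of_irreducible _ (minpoly.irreducible hal.isIntegral)
  obtain ⟨c, hc⟩ := minpoly.mem_range_of_degree_eq_one k1 s h1
  rw [← hc]
  exact c.2

/-- The value of the family of hyperplanes `P` at `t`. -/
noncomputable def valAt {K : Type*} [Field K] {k0 : Subfield K} {q n : ℕ}
    (P : Fin q → Fin (n + 1) → Polynomial k0) (t : K) : Fin q → Fin (n + 1) → K :=
  fun j i => aeval t (P j i)

theorem noline_of_family {K : Type*} [Field K] {k0 : Subfield K} {q n : ℕ}
    (P : Fin q → Fin (n + 1) → Polynomial k0)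
    (hD : ∀ x y : Fin (n + 1) → K,
      (∀ j, valAt P 0 j ⬝ᵥ x = 0 ∨ valAt P 0 j ⬝ᵥ y = 0) → x = 0 ∨ y = 0)
    (hT : ∀ c : Fin (n + 1) → Fin (n + 1) → K,
      (∀ j, ∑ a, ∑ b, c a b * (valAt P 0 j a * valAt P 1 j b) = 0) → c = 0)
    {s : K} {k1 : Subfield K} (h01 : k0 ≤ k1) (hac : IsAlgClosed k1) (hsk : s ∉ k1)
    (r : Fin q → K) (x y : Fin (n + 1) → K) (hr : ∀ j, r j ∈ k1)
    (hxy : ∀ j, valAt P s j ⬝ᵥ y = r j * (valAt P s j ⬝ᵥ x)) : ¬ LinearIndependent K ![x, y] := by
  classical
  have hs : Transcendental k1 s := transcendental_of_notMem hac hsk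
  let ι0 : k0 →+* k1 := Subfield.inclusion h01
  -- specialisation of determinants
  have hspec : ∀ (ν : Type) [Fintype ν] [DecidableEq ν] (M : Matrix ν ν (Polynomial k1)),
      (M.map (aeval s)).det = 0 → ∀ t : k1, (M.map (aeval (t : K))).det = 0 := by
    intro ν _ _ M h t
    have h1 : ∀ u : K, (M.map (aeval u)).det = aeval u M.det := by
      intro u
      have h2 := (RingHom.map_det (aeval u : Polynomial k1 →ₐ[k1] K).toRingHom M)
      exact h2.symm
    rw [h1] at h ⊢
    have h2 : M.det = 0 := by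
      by_contra h3
      exact hs ⟨M.det, h3, h⟩
    rw [h2, map_zero]
  have hvalmap : ∀ (t : K) j i, aeval t ((P j i).map ι0) = valAt P t j i := by
    intro t j i
    unfold valAt
    rw [aeval_def, eval₂_map, aeval_def]
    rfl
  -- the system
  let M : Fin q → Fin (n + 1) ⊕ Fin (n + 1) → Polynomial k1 := fun j =>
    Sum.elim (fun i => - (C ⟨r j, hr j⟩ * (P j i).map ι0)) (fun i => (P j i).map ι0)
  have hM : ∀ (t : K) j c, aeval t (M j c) =
      Sum.elim (fun i => - (r j * valAt P t j i)) (fun i => valAt P t j i) c := by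
    intro t j c
    cases c with
    | inl i =>
      simp only [M, Sum.elim_inl, map_neg, map_mul, aeval_C]
      rw [hvalmap]
      rfl
    | inr i =>
      simp only [M, Sum.elim_inr]
      rw [hvalmap]
  by_contra hli
  rw [LinearIndependent.pair_iff] at hli
  have hx0 : x ≠ 0 := by
    rintro rfl
    exact one_ne_zero (hli 1 0 (by simp)).1
  have hdot : ∀ (t : K) (j : Fin q) (v : Fin (n + 1) ⊕ Fin (n + 1) → K),
      (fun c => aeval t (M j c)) ⬝ᵥ v =
        (valAt P t j ⬝ᵥ fun i => v (Sum.inr i)) - r j * (valAt P t j ⬝ᵥ fun i => v (Sum.inl i)) := by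
    intro t j v
    simp only [dotProduct, Fintype.sum_sum_type, hM, Sum.elim_inl, Sum.elim_inr]
    rw [Finset.mul_sum, sub_eq_add_neg, ← Finset.sum_neg_distrib, add_comm]
    congr 1
    refine Finset.sum_congr rfl fun i _ => by ring
  have hker : ∀ σ : Fin (n + 1) ⊕ Fin (n + 1) → Fin q,
      ((Matrix.of fun c d => M (σ c) d).map (aeval s)).det = 0 := by
    intro σ
    rw [← Matrix.exists_mulVec_eq_zero_iff]
    refine ⟨Sum.elim x y, ?_, ?_⟩
    · intro h
      apply hx0
      funext i
      exact congrFun h (Sum.inl i)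
    · funext c
      have h1 := hdot s (σ c) (Sum.elim x y)
      simp only [Sum.elim_inl, Sum.elim_inr] at h1
      have h2 := hxy (σ c)
      change (fun d => aeval s (M (σ c) d)) ⬝ᵥ Sum.elim x y = 0
      rw [h1]
      exact sub_eq_zero.2 h2
  have hsol : ∀ t : k1, ∃ a b : Fin (n + 1) → K, (a ≠ 0 ∨ b ≠ 0) ∧
      ∀ j, valAt P (t : K) j ⬝ᵥ b = r j * (valAt P (t : K) j ⬝ᵥ a) := by
    intro t
    obtain ⟨v, hv0, hv⟩ := kernel_of_minors (fun (j : Fin q) c => aeval (t : K) (M j c))
      (fun σ => hspec _ (Matrix.of fun c d => M (σ c) d) (hker σ) t)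
    refine ⟨fun i => v (Sum.inl i), fun i => v (Sum.inr i), ?_, fun j => ?_⟩
    · by_contra hcon
      push Not at hcon
      apply hv0
      funext c
      cases c with
      | inl i => exact congrFun hcon.1 i
      | inr i => exact congrFun hcon.2 i
    · have h1 := hv j
      rw [hdot] at h1
      exact sub_eq_zero.1 h1
  obtain ⟨a, b, hab, h0⟩ := hsol 0
  obtain ⟨a', b', hab', h1⟩ := hsol 1
  simp only [ZeroMemClass.coe_zero, OneMemClass.coe_one] at h0 h1
  -- the bilinear form
  have hbil : ∀ α β, b α * a' β = a α * b' β := by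
    have h2 := hT (fun α β => b α * a' β - a α * b' β) (fun j => by
      have h3 : ∑ α, ∑ β, (b α * a' β - a α * b' β) * (valAt P 0 j α * valAt P 1 j β) =
          (valAt P 0 j ⬝ᵥ b) * (valAt P 1 j ⬝ᵥ a') - (valAt P 0 j ⬝ᵥ a) * (valAt P 1 j ⬝ᵥ b') := by
        simp only [dotProduct, Finset.sum_mul_sum, ← Finset.sum_sub_distrib]
        refine Finset.sum_congr rfl fun α _ => Finset.sum_congr rfl fun β _ => by ring
      rw [h3, h0, h1]
      ring)
    intro α β
    exact sub_eq_zero.1 (congrFun (congrFun h2 α) β)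
  have ha0 : a ≠ 0 := by
    rintro rfl
    have h2 : b ≠ 0 := hab.resolve_left (fun h => h rfl)
    have h3 := hD b b (fun j => Or.inl (by rw [h0 j, dotProduct_zero, mul_zero]))
    rcases h3 with h3 | h3 <;> exact h2 h3
  obtain ⟨α, hα⟩ := Function.ne_iff.1 ha0
  have hα' : a α ≠ 0 := hα
  set l : K := b α / a α with hl
  have hb' : ∀ β, b' β = l * a' β := by
    intro β
    rw [hl]
    field_simp
    linear_combination -(hbil α β)
  have ha'0 : a' ≠ 0 := by
    rintro rfl
    rcases hab' with h | h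
    · exact h rfl
    · apply h
      funext β
      rw [hb' β]
      simp
  obtain ⟨β, hβ⟩ := Function.ne_iff.1 ha'0
  have hβ' : a' β ≠ 0 := hβ
  have hb : b = l • a := by
    funext γ
    have h2 := hbil γ β
    rw [hb' β] at h2
    simp only [Pi.smul_apply, smul_eq_mul]
    have h3 : (b γ - l * a γ) * a' β = 0 := by linear_combination h2
    exact sub_eq_zero.1 ((mul_eq_zero.1 h3).resolve_right hβ')
  have hrl : ∀ j, valAt P 0 j ⬝ᵥ a ≠ 0 → r j = l := by
    intro j hj
    have h2 := h0 j
    rw [hb, dotProduct_smul, smul_eq_mul] at h2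
    exact (mul_right_cancel₀ hj h2).symm
  -- the hyperplanes whose value at zero does not contain the point span
  let w : Fin (n + 1) → K := y - l • x
  have hw : ∀ j, valAt P 0 j ⬝ᵥ a ≠ 0 → valAt P s j ⬝ᵥ w = 0 := by
    intro j hj
    simp only [w]
    rw [dotProduct_sub, dotProduct_smul, hxy j, hrl j hj, smul_eq_mul, sub_self]
  have hw0 : w = 0 := by
    by_contra hne
    obtain ⟨v, hv0, hv⟩ := kernel_of_minors
      (fun (j : {j : Fin q // valAt P 0 j ⬝ᵥ a ≠ 0}) i => valAt P 0 j.1 i) (fun σ => by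
        let M' : Matrix (Fin (n + 1)) (Fin (n + 1)) (Polynomial k1) :=
          Matrix.of fun c d => (P (σ c).1 d).map ι0
        have h2 : (M'.map (aeval s)).det = 0 := by
          rw [← Matrix.exists_mulVec_eq_zero_iff]
          refine ⟨w, hne, ?_⟩
          funext c
          have h3 := hw (σ c).1 (σ c).2
          change (fun d => aeval s ((P (σ c).1 d).map ι0)) ⬝ᵥ w = 0
          simp only [hvalmap]
          exact h3
        have h3 := hspec _ M' h2 0
        simp only [ZeroMemClass.coe_zero] at h3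
        refine Eq.trans ?_ h3
        congr 1
        ext c d
        simp only [M', Matrix.map_apply, Matrix.of_apply]
        rw [hvalmap])
    rcases hD a v (fun j => by
      by_cases hj : valAt P 0 j ⬝ᵥ a = 0
      · exact Or.inl hj
      · exact Or.inr (hv ⟨j, hj⟩)) with h2 | h2
    · exact ha0 h2
    · exact hv0 h2
  have h2 := hli (-l) 1 (by
    have h3 : (-l) • x + (1 : K) • y = w := by
      simp only [w]
      rw [one_smul, neg_smul]
      abel
    rw [h3, hw0])
  exact one_ne_zero h2.2

end Pool.Agent.TH145.MF
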