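import Mathlib

/-!
Linear relations between linear forms, and the partition of a vector into classes.
-/

set_option autoImplicit false

open Finset

namespace Pool.Agent.TH145.MF

variable {R : Type*} [Field R] {q n : ℕ}

theorem sum_mul_dot {b : Fin q → R} {A : Fin q → Fin (n + 1) → R}
    (hb : ∀ i, ∑ j, b j * A j i = 0) (x : Fin (n + 1) → R) :
    ∑ j, b j * (A j ⬝ᵥ x) = 0 := by
  have h1 : ∑ j, b j * (A j ⬝ᵥ x) = ∑ i, (∑ j, b j * A j i) * x i := by
    simp only [dotProduct, Finset.mul_sum, Finset.sum_mul]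
    rw [Finset.sum_comm]
    refine Finset.sum_congr rfl fun i _ => Finset.sum_congr rfl fun j _ => by ring
  rw [h1]
  exact Finset.sum_eq_zero fun i _ => by rw [hb i, zero_mul]

/-- Short relations that define the image of the linear map given by the forms `A j`. -/
theorem exists_rels (A : Fin q → Fin (n + 1) → R) :
    ∃ b : Fin q → Fin q → R, (∀ i, ∃ J : Finset (Fin q), J.card ≤ n + 2 ∧ ∀ j, b i j ≠ 0 → j ∈ J) ∧
      (∀ i a, ∑ j, b i j * A j a = 0) ∧
      ∀ w : Fin q → R, (∀ i, ∑ j, b i j * w j = 0) → ∃ x : Fin (n + 1) → R, ∀ j, w j = A j ⬝ᵥ x := by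
  classical
  obtain ⟨κ, a, ha, hspan, hli⟩ := exists_linearIndependent' R A
  have hfin : Finite κ := Finite.of_injective a ha
  have := Fintype.ofFinite κ
  have hcard : Fintype.card κ ≤ n + 1 := by
    have h1 := hli.fintype_card_le_finrank
    rwa [Module.finrank_fin_fun] at h1
  have hc : ∀ j, ∃ c : κ → R, ∑ l, c l • A (a l) = A j := by
    intro j
    have h1 : A j ∈ Submodule.span R (Set.range (A ∘ a)) := by
      rw [hspan]; exact Submodule.subset_span ⟨j, rfl⟩
    exact (Submodule.mem_span_range_iff_exists_fun R).1 h1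
  choose c hc using hc
  have hsum : ∀ (i : Fin q) (w : Fin q → R),
      ∑ j, ((if j = i then 1 else 0) - ∑ l, if a l = j then c i l else 0) * w j =
        w i - ∑ l, c i l * w (a l) := by
    intro i w
    simp only [sub_mul, Finset.sum_sub_distrib]
    congr 1
    · simp
    · simp only [Finset.sum_mul]
      rw [Finset.sum_comm]
      refine Finset.sum_congr rfl fun l _ => ?_
      simp
  refine ⟨fun i j => (if j = i then 1 else 0) - ∑ l, if a l = j then c i l else 0, ?_, ?_, ?_⟩
  · intro i
    refine ⟨insert i (univ.image a), ?_, ?_⟩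
    · refine (Finset.card_insert_le _ _).trans ?_
      have := (Finset.card_image_le (s := (univ : Finset κ)) (f := a))
      rw [Finset.card_univ] at this
      omega
    · intro j hj
      rw [Finset.mem_insert]
      by_cases hji : j = i
      · exact Or.inl hji
      · right
        by_contra hcon
        apply hj
        change (if j = i then (1 : R) else 0) - ∑ l, (if a l = j then c i l else 0) = 0
        rw [if_neg hji, Finset.sum_eq_zero, sub_zero]
        intro l _
        rw [if_neg]
        rintro rfl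
        exact hcon (Finset.mem_image_of_mem _ (Finset.mem_univ l))
  · intro i t
    rw [hsum i (fun j => A j t), ← hc i]
    simp [Finset.sum_apply]
  · intro w hw
    let f0 : Submodule.span R (Set.range (A ∘ a)) →ₗ[R] R :=
      (Module.Basis.span hli).constr R fun l => w (a l)
    obtain ⟨f, hf⟩ := LinearMap.exists_extend f0
    have hfa : ∀ l, f (A (a l)) = w (a l) := by
      intro l
      have h1 : f0 (Module.Basis.span hli l) = w (a l) := by
        rw [Module.Basis.constr_basis]
      rw [← h1, ← hf]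
      simp only [LinearMap.comp_apply, Submodule.subtype_apply, Module.Basis.span_apply,
        Function.comp_apply]
    refine ⟨fun i => f (fun j => if i = j then 1 else 0), fun j => ?_⟩
    have h1 := hw j
    rw [hsum j w, sub_eq_zero] at h1
    rw [h1]
    have h2 : A j ⬝ᵥ (fun i => f (fun j => if i = j then 1 else 0)) = f (A j) := by
      rw [LinearMap.pi_apply_eq_sum_univ f (A j)]
      rfl
    rw [h2, ← hc j, map_sum]
    refine Finset.sum_congr rfl fun l _ => ?_
    rw [map_smul, hfa, smul_eq_mul]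

/-- A vector whose class sums vanish has one class. -/
theorem one_class {A : Fin q → Fin (n + 1) → R}
    (hD : ∀ x y : Fin (n + 1) → R, (∀ j, A j ⬝ᵥ x = 0 ∨ A j ⬝ᵥ y = 0) → x = 0 ∨ y = 0)
    {b : Fin q → Fin q → R}
    (hb : ∀ w : Fin q → R, (∀ i, ∑ j, b i j * w j = 0) → ∃ x : Fin (n + 1) → R, ∀ j, w j = A j ⬝ᵥ x)
    (M : Fin q → R) (r : Fin q → Fin q → Prop) (hrefl : ∀ i, r i i)
    (hsymm : ∀ i j, r i j → r j i) (htrans : ∀ i j l, M j ≠ 0 → r i j → r j l → r i l)
    (hcls : ∀ i j0, M j0 ≠ 0 → ∀ T : Finset (Fin q), (∀ j, j ∈ T ↔ M j ≠ 0 ∧ r j j0) →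
      ∑ j ∈ T, b i j * M j = 0) :
    ∀ i j, M i ≠ 0 → M j ≠ 0 → r i j := by
  classical
  let T : Fin q → Finset (Fin q) := fun j0 => univ.filter fun i => M i ≠ 0 ∧ r i j0
  have hT : ∀ i j0, i ∈ T j0 ↔ M i ≠ 0 ∧ r i j0 := fun i j0 => by simp [T]
  have hx : ∀ j0, M j0 ≠ 0 → ∃ x : Fin (n + 1) → R, ∀ j, (if j ∈ T j0 then M j else 0) = A j ⬝ᵥ x := by
    intro j0 hj0
    apply hb
    intro i
    refine Eq.trans ?_ (hcls i j0 hj0 (T j0) (fun j => hT j j0))
    simp only [mul_ite, mul_zero]
    rw [Finset.sum_ite_mem, Finset.univ_inter]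
  intro i j hi hj
  by_contra hij
  obtain ⟨x, hx1⟩ := hx i hi
  obtain ⟨y, hy1⟩ := hx j hj
  have hiT : i ∈ T i := (hT _ _).2 ⟨hi, hrefl i⟩
  have hjT : j ∈ T j := (hT _ _).2 ⟨hj, hrefl j⟩
  rcases hD x y (fun l => by
    by_cases h1 : l ∈ T i
    · right
      rw [← hy1, if_neg]
      intro h2
      rw [hT] at h1 h2
      exact hij (htrans i l j h1.1 (hsymm _ _ h1.2) h2.2)
    · left
      rw [← hx1, if_neg h1]) with h | h
  · have h2 := hx1 i
    rw [if_pos hiT, h, dotProduct_zero] at h2
    exact hi h2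
  · have h2 := hy1 j
    rw [if_pos hjT, h, dotProduct_zero] at h2
    exact hj h2

end Pool.Agent.TH145.MF
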