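import Pool.Agent.TH145.MF.Comb
import Pool.Agent.W603.LV.Blk2
import Pool.Agent.W603.PV.Ext

/-!
Height bound for the points over a function field.
-/

set_option autoImplicit false

open Finset FF Pool.Agent.W603.LV Pool.Agent.W603.PV

namespace Pool.Agent.TH145.MF

/-- The vector `w` satisfies the linear relations between at most `n + 2` of the forms. -/
def Rels {R : Type*} [Field R] {q n : ℕ} (A : Fin q → Fin (n + 1) → R) (w : Fin q → R) : Prop :=
  ∀ (b : Fin q → R) (J : Finset (Fin q)), J.card ≤ n + 2 → (∀ j, b j ≠ 0 → j ∈ J) →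
    (∀ i, ∑ j, b j * A j i = 0) → ∑ j, b j * w j = 0

theorem sum_union {α G : Type*} [Fintype α] [AddCommMonoid G] (R : α → α → Prop)
    (hR : Equivalence R) (g : α → G)
    (h : ∀ (a : α) (A : Finset α), (∀ j, j ∈ A ↔ R a j) → ∑ j ∈ A, g j = 0) (T : Finset α)
    (hT : ∀ i ∈ T, ∀ j, R i j → j ∈ T) : ∑ j ∈ T, g j = 0 := by
  classical
  let cl : α → Finset α := fun a => univ.filter fun i => R a i
  have hcl : ∀ a i, i ∈ cl a ↔ R a i := fun a i => by simp [cl]
  rw [← Finset.sum_fiberwise_of_maps_to (s := T) (t := T.image cl) (g := cl)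
    (fun a ha => Finset.mem_image_of_mem _ ha)]
  apply Finset.sum_eq_zero
  intro C hC
  obtain ⟨a, ha, rfl⟩ := Finset.mem_image.1 hC
  apply h a
  intro i
  rw [Finset.mem_filter]
  constructor
  · rintro ⟨-, he⟩
    have h2 : i ∈ cl i := (hcl _ _).2 (hR.refl i)
    rw [he] at h2
    exact (hcl _ _).1 h2
  · intro hi
    refine ⟨hT a ha i hi, ?_⟩
    ext j
    rw [hcl, hcl]
    exact ⟨fun h3 => hR.trans hi h3, fun h3 => hR.trans (hR.symm hi) h3⟩

theorem height_bound {k L : Type} [Field k] [Field L] [Algebra k L] [IsAlgClosed k] [CharZero k]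
    [IsFF k L] {q n e : ℕ} {A : Fin q → Fin (n + 1) → L}
    (hD : ∀ x y : Fin (n + 1) → L, (∀ j, A j ⬝ᵥ x = 0 ∨ A j ⬝ᵥ y = 0) → x = 0 ∨ y = 0)
    (he0 : 0 < e) (he : (n + 1) ^ 2 ≤ e) :
    ∃ B : ℤ, 0 ≤ B ∧ ∀ z : Fin q → L, Rels A (fun j => z j ^ e) →
      ∀ i j, z i ≠ 0 → z j ≠ 0 → hgt k (z i / z j) ≤ B := by
  classical
  obtain ⟨b, hbJ, hbA, hbx⟩ := exists_rels A
  choose J hJc hJ using hbJ
  obtain ⟨S, hS⟩ := exists_supp (k := k) (Finset.univ : Finset (Fin q × Fin q))
    (fun p => b p.1 p.2)
  obtain ⟨X0, hX0⟩ : ∃ X0 : ℤ, X0 = ((n + 2 : ℕ) : ℤ) *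
    (e * tri (n + 2) * max (canDeg k L + S.card) 0) := ⟨_, rfl⟩
  have hX00 : 0 ≤ X0 := by
    rw [hX0]
    exact mul_nonneg (by positivity)
      (mul_nonneg (mul_nonneg (by positivity) (tri_nonneg _)) (le_max_right _ _))
  obtain ⟨C1, hC1⟩ : ∃ C1 : ℤ, C1 = ∑ p : Fin q × Fin q × Fin q,
    hgt k (b p.1 p.2.2 / b p.1 p.2.1) := ⟨_, rfl⟩
  have hC10 : 0 ≤ C1 := by
    rw [hC1]; exact Finset.sum_nonneg fun _ _ => hgt_nonneg _
  have hC1le : ∀ a i j, hgt k (b a j / b a i) ≤ C1 := by
    intro a i j
    rw [hC1]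
    exact Finset.single_le_sum (f := fun p : Fin q × Fin q × Fin q =>
      hgt k (b p.1 p.2.2 / b p.1 p.2.1)) (fun _ _ => hgt_nonneg _) (Finset.mem_univ (a, i, j))
  refine ⟨q * (X0 + C1), by positivity, ?_⟩
  intro z hz
  let G : SimpleGraph (Fin q) :=
    { Adj := fun i j => i ≠ j ∧ z i ≠ 0 ∧ z j ≠ 0 ∧ hgt k (z i ^ e / z j ^ e) ≤ X0 + C1
      symm := by
        refine ⟨?_⟩
        rintro i j ⟨h1, h2, h3, h4⟩
        refine ⟨h1.symm, h3, h2, ?_⟩
        rw [← hgt_inv, inv_div]; exact h4
      loopless := ⟨fun i h => h.1 rfl⟩ }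
  have hwalk : ∀ (i j : Fin q) (p : G.Walk i j), z i ≠ 0 →
      hgt k (z i ^ e / z j ^ e) ≤ p.length * (X0 + C1) := by
    intro i j p
    induction p with
    | nil =>
      intro hi
      rw [div_self (pow_ne_zero _ hi), hgt_one]; simp
    | cons h p ih =>
      rename_i u v w
      intro hu
      obtain ⟨h1, h2, h3, h4⟩ := h
      rw [SimpleGraph.Walk.length_cons]
      have hv : z v ^ e ≠ 0 := pow_ne_zero _ h3
      have hu' : z u ^ e ≠ 0 := pow_ne_zero _ h2
      by_cases hw : z w ^ e = 0
      · rw [hw, div_zero]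
        have h5 : hgt k (0 : L) = 0 := hgt_algebraic (k := k) (K := L) (f := 0) isAlgebraic_zero
        rw [h5]
        positivity
      · have h5 : z u ^ e / z w ^ e = (z u ^ e / z v ^ e) * (z v ^ e / z w ^ e) := by
          field_simp
        rw [h5]
        have h6 := hgt_mul (k := k) (div_ne_zero hu' hv) (div_ne_zero hv hw)
        have h7 := ih h3
        push_cast
        linarith
  have hreach : ∀ i j, z i ≠ 0 → G.Reachable i j → hgt k (z i ^ e / z j ^ e) ≤ q * (X0 + C1) := by
    intro i j hi hij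
    obtain ⟨p, hp⟩ := hij.exists_isPath
    have h1 := hwalk i j p hi
    have h2 : p.length ≤ q := by
      have := hp.length_lt
      rw [Fintype.card_fin] at this
      omega
    refine h1.trans ?_
    have h3 : (p.length : ℤ) ≤ q := by exact_mod_cast h2
    exact mul_le_mul_of_nonneg_right h3 (by positivity)
  have key := one_class hD hbx (fun j => z j ^ e) G.Reachable
    (fun i => SimpleGraph.Reachable.refl i)
    (fun i j h => h.symm) (fun i j l _ h h' => h.trans h') (by
      intro a j0 hMj0 T hT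
      let Jz : Type := {j : Fin q // b a j ≠ 0 ∧ z j ≠ 0}
      have hbz : ∀ j : Jz, b a j.1 ≠ 0 := fun j => j.2.1
      have hz0 : ∀ j : Jz, z j.1 ^ e ≠ 0 := fun j => pow_ne_zero _ j.2.2
      have hrel : ∑ j : Jz, b a j.1 * z j.1 ^ e = 0 := by
        have h1 : ∑ j, b a j * z j ^ e = 0 := hz (b a) (J a) (hJc a) (hJ a) (hbA a)
        refine Eq.trans ?_ h1
        have h2 : ∑ j, b a j * z j ^ e = ∑ j ∈ univ.filter (fun j => b a j ≠ 0 ∧ z j ≠ 0),
            b a j * z j ^ e := by
          symm
          apply Finset.sum_subset (Finset.subset_univ _)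
          intro j _ hj
          rw [Finset.mem_filter, not_and, not_and_or] at hj
          rcases hj (Finset.mem_univ _) with h | h
          · rw [not_not] at h
            rw [h, zero_mul]
          · rw [not_not] at h
            rw [h, zero_pow he0.ne', mul_zero]
        refine Eq.trans ?_ h2.symm
        exact (Finset.sum_subtype (univ.filter fun j => b a j ≠ 0 ∧ z j ≠ 0) (by intro x; simp)
          (fun j => b a j * z j ^ e)).symm
      have hcard : Fintype.card Jz ≤ n + 2 := by
        refine le_trans ?_ (hJc a)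
        rw [← Fintype.card_coe]
        exact Fintype.card_le_of_injective (fun j : Jz => (⟨j.1, hJ a _ j.2.1⟩ : J a))
          (fun a b h => Subtype.ext (Subtype.mk.inj h))
      obtain ⟨R, hR, hRh, hRs⟩ := blocks (k := k) (J := Jz) S (N := e) (s := n + 2) hcard he0
        (by simpa using he) (fun j => b a j.1 * z j.1 ^ e)
        (fun j => mul_ne_zero (hbz j) (hz0 j)) hrel (by
          intro P hP i j
          have h3 : ∀ j : Jz, P.ord (b a j.1) = 0 := by
            intro j
            by_contra h4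
            exact hP (hS (a, j.1) (Finset.mem_univ _) P h4)
          rw [P.ord_mul (hbz i) (hz0 i), P.ord_mul (hbz j) (hz0 j), h3, h3, zero_add, zero_add,
            P.ord_pow, P.ord_pow, ← mul_sub]
          exact dvd_mul_right _ _)
      let T' : Finset Jz := univ.filter fun j => G.Reachable j.1 j0
      have hT' : ∀ j, j ∈ T' ↔ G.Reachable j.1 j0 := fun j => by simp [T']
      have h1 := sum_union R hR (fun j : Jz => b a j.1 * z j.1 ^ e) (fun a A hA' => hRs a A hA')
        T' (by
          intro i hi j hij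
          rw [hT'] at hi ⊢
          refine SimpleGraph.Reachable.trans ?_ hi
          by_cases hji : j.1 = i.1
          · rw [hji]
          apply SimpleGraph.Adj.reachable
          refine ⟨hji, j.2.2, i.2.2, ?_⟩
          have h2 := hRh i j hij
          rw [← hX0] at h2
          have h3 : z j.1 ^ e / z i.1 ^ e = ((b a i.1 * z i.1 ^ e) / (b a j.1 * z j.1 ^ e))⁻¹ *
              (b a i.1 / b a j.1) := by
            have := hbz i
            have := hbz j
            have := hz0 i
            have := hz0 j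
            field_simp
          rw [h3]
          have h4 := hgt_mul (k := k)
            (inv_ne_zero (div_ne_zero (mul_ne_zero (hbz i) (hz0 i))
              (mul_ne_zero (hbz j) (hz0 j)))) (div_ne_zero (hbz i) (hbz j))
          rw [hgt_inv] at h4
          have h5 := hC1le a j.1 i.1
          linarith)
      have h2 : ∑ j ∈ T, b a j * z j ^ e =
          ∑ j ∈ T'.map (Function.Embedding.subtype _), b a j * z j ^ e := by
        symm
        apply Finset.sum_subset
        · intro j hj
          rw [Finset.mem_map] at hj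
          obtain ⟨j', hj', rfl⟩ := hj
          exact (hT _).2 ⟨hz0 j', (hT' _).1 hj'⟩
        · intro j hj hj'
          by_cases hbj : b a j = 0
          · rw [hbj, zero_mul]
          · exfalso
            apply hj'
            obtain ⟨h4, h5⟩ := (hT j).1 hj
            rw [Finset.mem_map]
            exact ⟨⟨j, hbj, fun h => h4 (by simp only [h]; exact zero_pow he0.ne')⟩,
              (hT' _).2 h5, rfl⟩
      rw [h2, Finset.sum_map]
      exact h1)
  intro i j hi hj
  have h1 := hreach i j hi (key i j (pow_ne_zero _ hi) (pow_ne_zero _ hj))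
  rw [← div_pow, hgt_pow (div_ne_zero hi hj)] at h1
  have h2 : (1 : ℤ) * hgt k (z i / z j) ≤ e * hgt k (z i / z j) :=
    mul_le_mul_of_nonneg_right (by exact_mod_cast he0) (hgt_nonneg _)
  linarith

end Pool.Agent.TH145.MF
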