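import Pool.Agent.TH145.MF.Hgt
import Pool.Agent.W602.RG.All

/-!
Infinitely many points over a function field give a line that meets the hyperplanes in points with
constant coordinates.
-/

set_option autoImplicit false

open Finset FF Pool.Agent.W603.LV Pool.Agent.W603.PV Pool.Agent.W602.RG

namespace Pool.Agent.TH145.MF

/-- sequences in the ultrapower -/
noncomputable def mkHom (k : Type) [Field k] : (ℕ → k) →+* Om k where
  toFun u := Om.mk u
  map_one' := rfl
  map_mul' _ _ := rfl
  map_zero' := rfl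
  map_add' _ _ := rfl

theorem mkHom_apply {k : Type} [Field k] (u : ℕ → k) : mkHom k u = Om.mk u := rfl

section coe

variable {k L : Type} [Field k] [Field L] [Algebra k L] {q : ℕ}

theorem coe_sum (c : Fin q → L) (r : Fin q → ℕ → k) (g : ℕ → Fin q → L) (fE : Fin q → EE k L)
    (hg : ∀ j, (fE j : Om L) = Om.mk fun m => g m j) (e : ℕ) :
    ((∑ j, algebraMap L (EE k L) (c j) * (algebraMap (Om k) (EE k L) (Om.mk (r j)) * fE j ^ e) :
      EE k L) : Om L) =
      Om.mk fun m => ∑ j, c j * (algebraMap k L (r j m) * g m j ^ e) := by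
  have h1 : ((∑ j, algebraMap L (EE k L) (c j) *
      (algebraMap (Om k) (EE k L) (Om.mk (r j)) * fE j ^ e) : EE k L) : Om L) =
      ∑ j, mkHom L (fun _ => c j) * (mkHom L (fun m => algebraMap k L (r j m)) *
        mkHom L (fun m => g m j) ^ e) := by
    rw [← Subfield.coe_subtype, map_sum]
    refine Finset.sum_congr rfl fun j _ => ?_
    rw [map_mul, map_mul, map_pow, Subfield.coe_subtype, coe_algebraMap_L, coe_algebraMap_Om,
      hg j, mapOm_mk]
    rfl
  have h2 : (Om.mk fun m => ∑ j, c j * (algebraMap k L (r j m) * g m j ^ e)) =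
      mkHom L (∑ j, (fun _ => c j) * ((fun m => algebraMap k L (r j m)) *
        (fun m => g m j) ^ e)) := by
    rw [mkHom_apply]
    congr 1
    funext m
    simp only [Finset.sum_apply, Pi.mul_apply, Pi.pow_apply]
  rw [h1, h2, map_sum]
  refine Finset.sum_congr rfl fun j _ => ?_
  rw [map_mul, map_mul, map_pow]

theorem coe_sum' (c : Fin q → L) (g : ℕ → Fin q → L) (fE : Fin q → EE k L)
    (hg : ∀ j, (fE j : Om L) = Om.mk fun m => g m j) (e : ℕ) :
    ((∑ j, algebraMap L (EE k L) (c j) * fE j ^ e : EE k L) : Om L) =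
      Om.mk fun m => ∑ j, c j * g m j ^ e := by
  have h1 := coe_sum c (fun _ _ => (1 : k)) g fE hg e
  have h2 : (Om.mk fun _ => (1 : k)) = 1 := Om.mk_one
  simp only [h2, map_one, one_mul] at h1
  exact h1

end coe

theorem sum_ite_zero {R : Type*} [Semiring R] {q : ℕ} (T : Finset (Fin q)) (c w : Fin q → R) :
    ∑ j, (if j ∈ T then c j else 0) * w j = ∑ j ∈ T, c j * w j := by
  simp only [ite_mul, zero_mul]
  rw [Finset.sum_ite_mem, Finset.univ_inter]

/-- If no line meets the hyperplanes in constant points, then no two points lie on all the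
hyperplanes. -/
theorem disj_of_noline {k L : Type} [Field k] [Field L] [Algebra k L] {q n : ℕ} (hn : 1 ≤ n)
    {A : Fin q → Fin (n + 1) → L}
    (hN : ∀ (r : Fin q → k) (x y : Fin (n + 1) → L),
      (∀ j, A j ⬝ᵥ y = algebraMap k L (r j) * (A j ⬝ᵥ x)) → ¬ LinearIndependent L ![x, y])
    (x y : Fin (n + 1) → L) (h : ∀ j, A j ⬝ᵥ x = 0 ∨ A j ⬝ᵥ y = 0) : x = 0 ∨ y = 0 := by
  classical
  by_contra hcon
  push Not at hcon
  obtain ⟨hx, hy⟩ := hcon
  by_cases hli : LinearIndependent L ![x, y]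
  · refine hN (fun j => if A j ⬝ᵥ x = 0 then 1 else 0) (x + y) y (fun j => ?_) ?_
    · by_cases h1 : A j ⬝ᵥ x = 0
      · simp [h1]
      · simp [h1, (h j).resolve_left h1]
    · rw [LinearIndependent.pair_iff] at hli ⊢
      intro s t hst
      have h1 := hli s (s + t) (by rw [← hst, smul_add, add_smul]; abel)
      exact ⟨h1.1, by have h2 := h1.2; rwa [h1.1, zero_add] at h2⟩
  · -- the points are equal
    have h0 : ∀ j, A j ⬝ᵥ x = 0 := by
      rw [LinearIndependent.pair_iff] at hli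
      push Not at hli
      obtain ⟨s, t, hst, hne⟩ := hli
      intro j
      rcases h j with h1 | h1
      · exact h1
      · have h2 := congrArg (fun v => A j ⬝ᵥ v) hst
        simp only [dotProduct_add, dotProduct_smul, dotProduct_zero, smul_eq_mul] at h2
        rw [h1, mul_zero, add_zero] at h2
        rcases mul_eq_zero.1 h2 with h3 | h3
        · exfalso
          rw [h3, zero_smul, zero_add] at hst
          rcases smul_eq_zero.1 hst with h4 | h4
          · exact hne h3 h4
          · exact hy h4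
        · exact h3
    -- a point different from `x`
    obtain ⟨i, hi⟩ := Function.ne_iff.1 hx
    have hxi : x i ≠ 0 := hi
    have hnt : Nontrivial (Fin (n + 1)) := Fin.nontrivial_iff_two_le.2 (by omega)
    obtain ⟨l, hl⟩ := exists_ne i
    refine hN (fun _ => 0) (Pi.single l 1) x (fun j => by rw [h0 j, map_zero, zero_mul]) ?_
    rw [LinearIndependent.pair_iff]
    intro s t hst
    have h1 := congrFun hst i
    simp only [Pi.add_apply, Pi.smul_apply, Pi.single_eq_of_ne (Ne.symm hl), smul_eq_mul, mul_zero,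
      zero_add, Pi.zero_apply] at h1
    have h2 := (mul_eq_zero.1 h1).resolve_right hxi
    have h3 := congrFun hst l
    simp only [Pi.add_apply, Pi.smul_apply, Pi.single_eq_same, smul_eq_mul, mul_one,
      Pi.zero_apply, h2, zero_mul, add_zero] at h3
    exact ⟨h3, h2⟩

theorem rigid_step {k L : Type} [Field k] [Field L] [Algebra k L] [IsAlgClosed k] [CharZero k]
    [IsFF k L] {m n e : ℕ} (hn : 1 ≤ n) {A : Fin (m + 1) → Fin (n + 1) → L}
    (he : (n + 1) ^ 2 ≤ e)
    (hN : ∀ (r : Fin (m + 1) → k) (x y : Fin (n + 1) → L),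
      (∀ j, A j ⬝ᵥ y = algebraMap k L (r j) * (A j ⬝ᵥ x)) → ¬ LinearIndependent L ![x, y])
    (j0 : Fin (m + 1)) :
    {z : Fin (m + 1) → L | z j0 = 1 ∧ Rels A (fun j => z j ^ e)}.Finite := by
  classical
  have he0 : 0 < e := lt_of_lt_of_le (by positivity) he
  have hDj := disj_of_noline hn hN
  by_contra hinf
  obtain ⟨M, hM⟩ : ∃ M, M = {z : Fin (m + 1) → L | z j0 = 1 ∧ Rels A (fun j => z j ^ e)} :=
    ⟨_, rfl⟩
  rw [← hM] at hinf
  have hinf' : M.Infinite := hinf
  have hM1 : ∀ z ∈ M, z j0 = 1 := fun z hz => by rw [hM] at hz; exact hz.1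
  have hM2 : ∀ z ∈ M, Rels A (fun j => z j ^ e) := fun z hz => by rw [hM] at hz; exact hz.2
  obtain ⟨B, hB0, hB⟩ := height_bound (k := k) hDj he0 he
  have hgt0 : hgt k (0 : L) = 0 := hgt_algebraic (k := k) (K := L) (f := 0) isAlgebraic_zero
  have hhgt : ∀ z ∈ M, ∀ j, hgt k (z j) ≤ B := by
    intro z hz j
    by_cases hj : z j = 0
    · rw [hj, hgt0]; exact hB0
    · have h1 := hB z (hM2 z hz) j j0 hj (by rw [hM1 z hz]; exact one_ne_zero)
      rwa [hM1 z hz, div_one] at h1
  -- a coordinate with infinitely many values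
  obtain ⟨i1, hi1⟩ : ∃ i1, ((fun f : Fin (m + 1) → L => f i1) '' M).Infinite := by
    by_contra hcon
    push Not at hcon
    apply hinf'
    apply (Set.Finite.pi' (t := fun j : Fin (m + 1) => (fun f : Fin (m + 1) → L => f j) '' M)
      (fun j => hcon j)).subset
    intro f hf j
    exact ⟨f, hf, rfl⟩
  obtain ⟨p, u, θ, hu, hθ, hval⟩ := Pool.Agent.W764.RG.Seq.main k L B _ hi1 (by
    rintro _ ⟨f, hf, rfl⟩
    exact hhgt f hf i1)
  choose g hgM hgu using hu
  have hg1 : ∀ l, g l j0 = 1 := fun l => hM1 _ (hgM l)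
  -- homogeneous coordinates in a finite dimensional space
  obtain ⟨V, hV, hVf⟩ := Pool.Agent.W369.RG.RIE.main k L m (∑ _j : Fin (m + 1), B)
  have hφ : ∀ l, ∃ φ : L, φ ≠ 0 ∧ ∀ j, φ * g l j ∈ V := fun l =>
    hVf (g l) ⟨j0, by rw [hg1]; exact one_ne_zero⟩ (by
      have h1 := Pool.Agent.W603.PV.pht_le (k := k) (g l) (l := j0)
        (by rw [hg1]; exact one_ne_zero)
      refine h1.trans (Finset.sum_le_sum fun j _ => ?_)
      rw [hg1, div_one]
      exact hhgt _ (hgM l) j)
  choose φ hφ0 hφV using hφ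
  have hφE : Om.mk φ ∈ EE k L := by
    apply Pool.Agent.W61.RG.GSP.main k L V hV
    intro l
    have := hφV l j0
    rwa [hg1, mul_one] at this
  have hφne : Om.mk φ ≠ 0 := Om.mk_ne_zero hφ0
  have hgE : ∀ j, Om.mk (fun l => g l j) ∈ EE k L := by
    intro j
    have h1 : Om.mk (fun l => φ l * g l j) ∈ EE k L :=
      Pool.Agent.W61.RG.GSP.main k L V hV _ fun l => hφV l j
    have h2 : Om.mk (fun l => g l j) = Om.mk (fun l => φ l * g l j) / Om.mk φ := by
      rw [← Om.mk_mul, mul_div_cancel_left₀ _ hφne]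
    rw [h2]
    exact div_mem h1 hφE
  let fE : Fin (m + 1) → EE k L := fun j => ⟨Om.mk fun l => g l j, hgE j⟩
  have hfE : ∀ j, (fE j : Om L) = Om.mk fun l => g l j := fun j => rfl
  have hf1 : fE j0 = 1 := by
    apply Subtype.ext
    rw [hfE]
    change _ = Om.mk fun _ => (1 : L)
    congr 1
    funext l
    exact hg1 l
  -- the fields
  have hBC : BC k L (Om k) (EE k L) := Pool.Agent.W736.RG.main k L
  have hAC : IsAlgClosed (Om k) := Pool.Agent.W917.RG.GAC.main k
  have hCZ : CharZero (Om k) :=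
    charZero_of_injective_algebraMap (algebraMap k (Om k)).injective
  have hcL : CharZero L := charZero_of_injective_algebraMap (algebraMap k L).injective
  have hcE : CharZero (EE k L) := charZero_of_injective_algebraMap (algebraMap k (EE k L)).injective
  have hFF : IsFF (Om k) (EE k L) := Pool.Agent.W215.RG.ISF.main k L _ _ hBC
  obtain ⟨D0, hD0⟩ := Pool.Agent.W160.RG.DER.main k (Om k) (Om.mk θ)
    (Pool.Agent.W32.RG.GTR.main k θ hθ)
  obtain ⟨D, hD⟩ := Pool.Agent.W797.RG.main k L _ _ hBC D0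
  have hregC : ∀ P : Place (Om k) (EE k L), (∃ l : L, P.ord (algebraMap L (EE k L) l) ≠ 0) →
      Reg0 D P := Pool.Agent.W215.RG.RGC.main k L _ _ hBC D D0 hD
  have hreg : ∀ P : Place (Om k) (EE k L), Reg0 D P ∨ Mov D P := by
    intro P
    by_cases h : ∃ l : L, P.ord (algebraMap L (EE k L) l) ≠ 0
    · exact Or.inl (hregC P h)
    · push Not at h
      exact Pool.Agent.W440.RG.RGM.main k L _ _ hBC D D0 hD P h
  -- the coordinate with infinitely many values is moving
  obtain ⟨P1, hP1, hP1v⟩ := Pool.Agent.W374.RG.GPL.main k L p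
  have hDi1 : D (fE i1) ≠ 0 := by
    intro h0
    have h1 : fE i1 - algebraMap (Om k) (EE k L) (Om.mk θ) = 0 ∨
        0 < P1.ord (fE i1 - algebraMap (Om k) (EE k L) (Om.mk θ)) := by
      refine hP1v _ (fun l => g l i1 - algebraMap k L (θ l)) ?_ fun l => ?_
      · change Om.mk (fun l => g l i1) - mapOm k L (Om.mk θ) = _
        rw [mapOm_mk, Om.mk_sub]
      · have h4 : g l i1 = u l := hgu l
        change g l i1 - algebraMap k L (θ l) = 0 ∨ 0 < p.ord (g l i1 - algebraMap k L (θ l))
        rw [h4, sub_eq_zero]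
        exact hval l
    have h2 : D (fE i1 - algebraMap (Om k) (EE k L) (Om.mk θ)) =
        - algebraMap (Om k) (EE k L) (D0 (Om.mk θ)) := by
      rw [map_sub, h0, hD, zero_sub]
    have h3 : algebraMap (Om k) (EE k L) (D0 (Om.mk θ)) ≠ 0 := (map_ne_zero _).2 hD0
    rcases h1 with h | h
    · rw [h, map_zero] at h2
      exact h3 (neg_eq_zero.1 h2.symm)
    · have h4 := hregC P1 hP1 (fE i1 - algebraMap (Om k) (EE k L) (Om.mk θ))
        (by rw [h2]; exact neg_ne_zero.2 h3)
      rw [h2, P1.ord_neg, P1.ord_const hD0] at h4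
      omega
  have hfi1 : fE i1 ≠ 0 := by
    intro h
    apply hDi1
    rw [h, map_zero]
  have hsupp : ∀ j, ∀ᶠ l in (Filter.hyperfilter ℕ : Filter ℕ), (fE j = 0 ↔ g l j = 0) := by
    intro j
    by_cases hj : fE j = 0
    · have h1 : Om.mk (fun l => g l j) = Om.mk fun _ => (0 : L) := by
        rw [← hfE j, hj]; rfl
      rw [Om.mk_eq] at h1
      exact h1.mono fun l hl => ⟨fun _ => hl, fun _ => hj⟩
    · have h1 : ∀ᶠ l in (Filter.hyperfilter ℕ : Filter ℕ), ¬ (g l j = 0) := by
        rw [Ultrafilter.eventually_not]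
        intro h
        apply hj
        apply Subtype.ext
        rw [hfE]
        change _ = Om.mk fun _ => (0 : L)
        rw [Om.mk_eq]
        exact h
      exact h1.mono fun l hl => ⟨fun h => absurd h hj, fun h => absurd h hl⟩
  -- the relations
  obtain ⟨b, hbJ, hbA, hbx⟩ := exists_rels A
  choose J hJc hJ using hbJ
  have hrelE : ∀ a, ∑ j, algebraMap L (EE k L) (b a j) * fE j ^ e = 0 := by
    intro a
    apply Subtype.ext
    rw [coe_sum' (b a) g fE hfE e]
    change _ = Om.mk fun _ => (0 : L)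
    congr 1
    funext l
    exact hM2 _ (hgM l) (b a) (J a) (hJc a) (hJ a) (hbA a)
  -- the class sums
  have hcls : ∀ (a j1 : Fin (m + 1)) (T : Finset (Fin (m + 1))),
      (∀ j, j ∈ T ↔ fE j ^ e ≠ 0 ∧ Rel (Om k) D (fE j ^ e) (fE j1 ^ e)) →
      ∑ j ∈ T, algebraMap L (EE k L) (b a j) * fE j ^ e = 0 := by
    intro a j1 T hT
    let J' : Finset (Fin (m + 1)) := univ.filter fun j => b a j ≠ 0 ∧ fE j ^ e ≠ 0
    have hJ' : ∀ j, j ∈ J' ↔ b a j ≠ 0 ∧ fE j ^ e ≠ 0 := fun j => by simp [J']
    have hcard : (J'.card - 1) ^ 2 ≤ e := by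
      have h1 : J'.card ≤ (J a).card := Finset.card_le_card fun j hj => hJ a j ((hJ' j).1 hj).1
      have h2 := hJc a
      exact (Nat.pow_le_pow_left (by omega) 2).trans he
    have hsum : ∑ j ∈ J', algebraMap L (EE k L) (b a j) * fE j ^ e = 0 := by
      rw [← hrelE a]
      apply Finset.sum_subset (Finset.subset_univ _)
      intro j _ hj
      rw [hJ', not_and_or, not_not, not_not] at hj
      rcases hj with h | h
      · rw [h, map_zero, zero_mul]
      · rw [h, mul_zero]
    by_cases hex : ∃ j2, j2 ∈ T ∧ j2 ∈ J'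
    · obtain ⟨j2, hj2T, hj2J⟩ := hex
      have h1 : ∑ j ∈ T ∩ J', algebraMap L (EE k L) (b a j) * fE j ^ e = 0 := by
        refine cls_all L (Om k) (EE k L) (Fin (m + 1)) D hreg J' e he0 hcard (fun j => fE j ^ e)
          (fun j => algebraMap L (EE k L) (b a j)) (fun i hi => ((hJ' i).1 hi).2)
          (fun i _ => D.map_algebraMap _) hsum ?_ j2 (T ∩ J') hj2J ?_
        · intro P _ i _ j _
          rw [P.ord_pow, P.ord_pow, ← mul_sub]
          exact dvd_mul_right _ _
        · intro i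
          rw [Finset.mem_inter, hT]
          constructor
          · rintro ⟨⟨-, h3⟩, h4⟩
            exact ⟨h4, h3.trans' ((hT j2).1 hj2T).2.symm'⟩
          · rintro ⟨h4, h3⟩
            exact ⟨⟨((hJ' i).1 h4).2, h3.trans' ((hT j2).1 hj2T).2⟩, h4⟩
      rw [← h1]
      symm
      apply Finset.sum_subset Finset.inter_subset_left
      intro j hj hj'
      by_cases hbj : b a j = 0
      · rw [hbj, map_zero, zero_mul]
      · exact absurd (Finset.mem_inter.2 ⟨hj, (hJ' j).2 ⟨hbj, ((hT j).1 hj).1⟩⟩) hj'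
    · push Not at hex
      apply Finset.sum_eq_zero
      intro j hj
      have h1 := hex j hj
      rw [hJ', not_and_or, not_not, not_not] at h1
      rcases h1 with h | h
      · rw [h, map_zero, zero_mul]
      · rw [h, mul_zero]
  -- all coordinates are related
  have hRel : ∀ i j, fE i ^ e ≠ 0 → fE j ^ e ≠ 0 → Rel (Om k) D (fE i ^ e) (fE j ^ e) := by
    let T : Fin (m + 1) → Finset (Fin (m + 1)) := fun j1 =>
      univ.filter fun j => fE j ^ e ≠ 0 ∧ Rel (Om k) D (fE j ^ e) (fE j1 ^ e)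
    have hT : ∀ j1 j, j ∈ T j1 ↔ fE j ^ e ≠ 0 ∧ Rel (Om k) D (fE j ^ e) (fE j1 ^ e) :=
      fun j1 j => by simp [T]
    have hev : ∀ p : Fin (m + 1) × Fin (m + 1), ∀ᶠ l in (Filter.hyperfilter ℕ : Filter ℕ),
        ∑ j ∈ T p.2, b p.1 j * g l j ^ e = 0 := by
      intro p
      have h1 := hcls p.1 p.2 (T p.2) (hT p.2)
      have h2 : ∑ j, algebraMap L (EE k L) (if j ∈ T p.2 then b p.1 j else 0) * fE j ^ e = 0 := by
        refine Eq.trans ?_ ((sum_ite_zero (T p.2) (fun j => algebraMap L (EE k L) (b p.1 j))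
          (fun j => fE j ^ e)).trans h1)
        refine Finset.sum_congr rfl fun j _ => ?_
        rw [apply_ite (algebraMap L (EE k L)), map_zero]
      have h3 := congrArg (fun x : EE k L => (x : Om L)) h2
      change ((_ : EE k L) : Om L) = _ at h3
      rw [coe_sum' (fun j => if j ∈ T p.2 then b p.1 j else 0) g fE hfE e] at h3
      have h4 : (Om.mk fun l => ∑ j, (if j ∈ T p.2 then b p.1 j else 0) * g l j ^ e) =
          Om.mk fun _ => (0 : L) := h3
      rw [Om.mk_eq] at h4
      refine h4.mono fun l hl => ?_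
      rw [← hl, sum_ite_zero]
    obtain ⟨l, hl1, hl2⟩ := ((Filter.eventually_all.2 hev).and (Filter.eventually_all.2 hsupp)).exists
    have hz : ∀ j, g l j ^ e ≠ 0 ↔ fE j ^ e ≠ 0 := by
      intro j
      rw [Ne, Ne, pow_eq_zero_iff he0.ne', pow_eq_zero_iff he0.ne', hl2 j]
    have key := one_class hDj hbx (fun j => g l j ^ e)
      (fun i j => Rel (Om k) D (fE i ^ e) (fE j ^ e))
      (fun i => Rel.refl' D _) (fun i j h => h.symm') (fun i j l _ h h' => h.trans' h') (by
        intro a j1 _ T' hT'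
        have h1 : T' = T j1 := by
          ext j
          rw [hT', hT, hz]
        rw [h1]
        exact hl1 (a, j1))
    intro i j hi hj
    exact key i j ((hz i).2 hi) ((hz j).2 hj)
  -- the logarithmic derivatives of the terms
  have hlog : ∀ j, ∃ ρ : ℕ → k, D (fE j ^ e) = algebraMap (Om k) (EE k L) (Om.mk ρ) * fE j ^ e := by
    intro j
    by_cases hj : fE j ^ e = 0
    · exact ⟨fun _ => 0, by rw [hj, map_zero, mul_zero]⟩
    · obtain ⟨ω, c, hω, hc, hDc, h1⟩ := hRel j j0 hj (by rw [hf1, one_pow]; exact one_ne_zero)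
      obtain ⟨ρ, hρ⟩ := Om.mk_surj (D0 ω / ω)
      refine ⟨ρ, ?_⟩
      have hω' : algebraMap (Om k) (EE k L) ω ≠ 0 := (map_ne_zero _).2 hω
      rw [hρ, map_div₀, h1, hf1, one_pow, mul_one, D.leibniz, hDc, hD]
      simp only [smul_eq_mul, mul_zero, zero_add]
      field_simp
  choose ρ hρ using hlog
  -- differentiate the relations
  have hrelD : ∀ a, ∑ j, algebraMap L (EE k L) (b a j) *
      (algebraMap (Om k) (EE k L) (Om.mk (ρ j)) * fE j ^ e) = 0 := by
    intro a
    have h1 := congrArg D (hrelE a)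
    rw [map_sum, map_zero] at h1
    rw [← h1]
    refine Finset.sum_congr rfl fun j _ => ?_
    rw [← hρ j, D.leibniz, D.map_algebraMap]
    simp
  have hev1 : ∀ a, ∀ᶠ l in (Filter.hyperfilter ℕ : Filter ℕ),
      ∑ j, b a j * (algebraMap k L (ρ j l) * g l j ^ e) = 0 := by
    intro a
    have h1 := congrArg (fun x : EE k L => (x : Om L)) (hrelD a)
    change ((_ : EE k L) : Om L) = _ at h1
    rw [coe_sum (b a) ρ g fE hfE e] at h1
    have h2 : (Om.mk fun l => ∑ j, b a j * (algebraMap k L (ρ j l) * g l j ^ e)) =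
        Om.mk fun _ => (0 : L) := h1
    rwa [Om.mk_eq] at h2
  have hev2 : ∀ᶠ l in (Filter.hyperfilter ℕ : Filter ℕ), ρ j0 l = 0 := by
    have h1 := hρ j0
    rw [hf1, one_pow, D.map_one_eq_zero, mul_one] at h1
    have h2 : Om.mk (ρ j0) = Om.mk fun _ => (0 : k) := by
      rw [Om.mk_zero]
      exact (map_eq_zero _).1 h1.symm
    rwa [Om.mk_eq] at h2
  have hev3 : ∀ᶠ l in (Filter.hyperfilter ℕ : Filter ℕ), ¬ (ρ i1 l = 0) := by
    rw [Ultrafilter.eventually_not]
    intro h
    have h1 : Om.mk (ρ i1) = 0 := by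
      rw [← Om.mk_zero, Om.mk_eq]
      exact h
    have h2 := hρ i1
    rw [h1, map_zero, zero_mul, D.leibniz_pow] at h2
    have h3 : (e : EE k L) ≠ 0 := by exact_mod_cast he0.ne'
    rw [nsmul_eq_mul, smul_eq_mul] at h2
    rcases mul_eq_zero.1 h2 with h4 | h4
    · exact h3 h4
    · rcases mul_eq_zero.1 h4 with h5 | h5
      · exact pow_ne_zero _ hfi1 h5
      · exact hDi1 h5
  obtain ⟨l, ⟨⟨hl1, hl2⟩, hl3⟩, hl4⟩ :=
    (((Filter.eventually_all.2 hev1).and hev2).and hev3 |>.and (hsupp i1)).exists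
  have hgl : g l i1 ≠ 0 := fun h => hfi1 (hl4.2 h)
  obtain ⟨x, hx⟩ := hbx (fun j => g l j ^ e) (fun a =>
    hM2 _ (hgM l) (b a) (J a) (hJc a) (hJ a) (hbA a))
  obtain ⟨y, hy⟩ := hbx (fun j => algebraMap k L (ρ j l) * g l j ^ e) hl1
  refine hN (fun j => ρ j l) x y (fun j => by rw [← hy j, ← hx j]) ?_
  rw [LinearIndependent.pair_iff]
  intro s t hst
  have h1 : ∀ j, (s + t * algebraMap k L (ρ j l)) * g l j ^ e = 0 := by
    intro j
    have h2 := congrArg (fun v => A j ⬝ᵥ v) hst
    simp only [dotProduct_add, dotProduct_smul, dotProduct_zero, smul_eq_mul] at h2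
    rw [← hx j, ← hy j] at h2
    linear_combination h2
  have h2 := h1 j0
  rw [hl2, map_zero, mul_zero, add_zero, hg1, one_pow, mul_one] at h2
  refine ⟨h2, ?_⟩
  have h3 := h1 i1
  rw [h2, zero_add] at h3
  have h4 := (mul_eq_zero.1 h3).resolve_right (pow_ne_zero _ hgl)
  exact (mul_eq_zero.1 h4).resolve_right ((map_ne_zero _).2 hl3)

end Pool.Agent.TH145.MF
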